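import Pool.Agent.R658.FPComp

set_option autoImplicit false

/-!
It is decidable whether a finitely generated subdirect product of two free semigroups, given by a
finite list of generating pairs, is a fiber product.
-/

namespace Pool.Agent.Results.MP_b63848_al.FiberProductDecidable

open Pool.Agent.R658.FP

/-- There is an algorithm which, given the sizes `p, q` of two alphabets `A = Fin p`, `B = Fin q`
and a list `X` of pairs of words, decides whether `(p, q, X)` is a legal instance (that is,
`p, q > 0`, `X` consists of pairs in `A⁺ × B⁺` and generates a subdirect product of `A⁺` and `B⁺`)
for which the subsemigroup generated by `X` is a fiber product. -/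
theorem result :
    ComputablePred (fun i : ℕ × ℕ × List (List ℕ × List ℕ) =>
      Legal i.1 i.2.1 i.2.2 ∧ IsFiberProduct (S i.1 i.2.1 i.2.2)) :=
  main_primrec.computablePred

end Pool.Agent.Results.MP_b63848_al.FiberProductDecidable
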